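import Mathlib

set_option autoImplicit false

namespace Pool.Agent.Results.MP_020ed8_lc.Upper

open Finset

variable {n : ℕ}

def Feasible (f p : Fin n → ℕ) : Prop :=
  ∃ S : ℕ → Fin n, ∀ i, (∀ N, ∃ t, N ≤ t ∧ S t = i) ∧ ∀ a b, a < b → S a = i → S b = i →
    (∀ t, a < t → t < b → S t ≠ i) → ∑ t ∈ Ioc a b, p (S t) ≤ f i

/-- `L(V) ≤ α`: the density and every term of the localized measure are at most `α`. -/
def LLe (f p : Fin n → ℕ) (α : ℝ) : Prop :=
  ∑ i, (p i : ℝ) / f i ≤ α ∧ ∀ i k, i < k →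
    ((∑ j ∈ univ.filter (· ≤ i), (f i / f j) * p j + p k : ℕ) : ℝ) / f i ≤ α

lemma around (S : ℕ → Fin n) (i : Fin n) (c : ℕ) (h1 : ∃ t < c, S t = i)
    (h2 : ∃ t, c + 1 ≤ t ∧ S t = i) (hc : S c ≠ i) : ∃ a b, a < c ∧ c < b ∧ S a = i ∧ S b = i ∧
      ∀ t, a < t → t < b → S t ≠ i := by
  classical
  obtain ⟨a, ha, m⟩ := ((range c).filter fun t => S t = i).exists_max_image id (by
    obtain ⟨t, a, b⟩ := h1; exact ⟨t, by simp [a, b]⟩)
  simp only [mem_filter, mem_range, id] at ha m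
  refine ⟨a, Nat.find h2, ha.1, (Nat.find_spec h2).1, ha.2, (Nat.find_spec h2).2,
    fun t x y e => ?_⟩
  rcases lt_trichotomy t c with l | rfl | l
  · have := m t ⟨l, e⟩; omega
  · exact hc e
  · exact Nat.find_min h2 y ⟨l, e⟩

lemma infeas (f p : Fin 3 → ℕ) (h0 : f 0 < p 0 + p 1 + p 2) (h1 : f 1 < 2 * p 0 + p 1 + p 2) :
    ¬ Feasible f p := by
  rintro ⟨S, h⟩
  obtain ⟨s, -, hs⟩ := (h 0).1 0
  obtain ⟨t, -, ht⟩ := (h 1).1 0
  obtain ⟨c, hc, e⟩ := (h 2).1 (s + t + 1)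
  obtain ⟨a, b, a1, a2, a3, a4, a5⟩ := around S 0 c ⟨s, by omega, hs⟩ ((h 0).1 _) (by simp [e])
  obtain ⟨a', b', b1, b2, b3, b4, b5⟩ := around S 1 c ⟨t, by omega, ht⟩ ((h 1).1 _) (by simp [e])
  have g0 := (h 0).2 a b (by omega) a3 a4 a5
  have g1 := (h 1).2 a' b' (by omega) b3 b4 b5
  have n1 : a ≠ a' := by rintro rfl; simp [a3] at b3
  have n2 : b ≠ b' := by rintro rfl; simp [a4] at b4
  have three : ∀ u, a < u → u < b → S u = 1 → False := fun u x y z => by
    have : u ≠ c := by rintro rfl; simp [e] at z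
    have := (sum_le_sum_of_subset (s := {u, c, b}) (by
      intro v hv; simp only [mem_insert, mem_singleton, mem_Ioc] at *; omega)).trans g0
    rw [sum_insert (by simp; omega), sum_pair (by omega), z, e, a4] at this
    omega
  by_cases c1 : a < a'
  · exact three a' c1 (by omega) b3
  by_cases c2 : b' < b
  · exact three b' (by omega) c2 b4
  have := (sum_le_sum_of_subset (s := {a, c, b, b'}) (by
    intro v hv; simp only [mem_insert, mem_singleton, mem_Ioc] at *; omega)).trans g1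
  rw [sum_insert (by simp; omega), sum_insert (by simp; omega), sum_pair n2, a3, e, a4, b4] at this
  omega

theorem result : ∃ f p : Fin 3 → ℕ, (∀ i, 0 < f i ∧ 0 < p i) ∧ Monotone f ∧
    LLe f p 0.70711 ∧ ¬ Feasible f p := by
  refine ⟨![3414213, 4828427, 1000000000], ![1414214, 1000000, 1000000], by decide,
    by decide, ⟨?_, fun i k h => ?_⟩, infeas _ _ (by decide) (by decide)⟩
  · simp [Fin.sum_univ_three]
    norm_num
  · fin_cases i <;> fin_cases k <;> simp [sum_filter, Fin.sum_univ_three] at h ⊢ <;> norm_num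

end Pool.Agent.Results.MP_020ed8_lc.Upper
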